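import Pool.Agent.H381R4.CM.Stubs

/-!
# Symmetric polytopes: topology and measure (helper227, for helper381's project `MP_a34d76_pr`)
-/

set_option autoImplicit false
open MeasureTheory Matrix Filter Topology
open scoped ENNReal BigOperators Pointwise

namespace Pool.Agent.H381CM

private theorem hyper_null {d : ℕ} (v : V d) (c : ℝ) (hv : v ≠ 0) :
    volume {x : V d | v ⬝ᵥ x = c} = 0 := by
  by_cases hne : ∃ x0 : V d, v ⬝ᵥ x0 = c
  · obtain ⟨x0, hx0⟩ := hne
    set L : V d →ₗ[ℝ] ℝ :=
      { toFun := fun x => v ⬝ᵥ x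
        map_add' := fun x y => dotProduct_add v x y
        map_smul' := fun r x => by simp [dotProduct_smul] } with hL
    have hLx : ∀ x, L x = v ⬝ᵥ x := fun x => rfl
    have hset : {x : V d | v ⬝ᵥ x = c} = ((AffineSubspace.mk' x0 (LinearMap.ker L) : AffineSubspace ℝ (V d)) : Set (V d)) := by
      ext x
      simp only [Set.mem_ofPred_eq, SetLike.mem_coe, AffineSubspace.mem_mk', LinearMap.mem_ker,
        vsub_eq_sub, hLx]
      rw [dotProduct_sub, hx0, sub_eq_zero]
    rw [hset]
    apply Measure.addHaar_affineSubspace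
    intro htop
    apply hv
    have hdir : LinearMap.ker L = ⊤ := by
      have := congrArg AffineSubspace.direction htop
      rwa [AffineSubspace.direction_mk', AffineSubspace.direction_top] at this
    have h0 : L v = 0 := by
      have : v ∈ LinearMap.ker L := by rw [hdir]; trivial
      exact this
    rw [hLx] at h0
    exact dotProduct_self_eq_zero.mp h0
  · have : {x : V d | v ⬝ᵥ x = c} = ∅ := by
      ext x
      simp only [Set.mem_ofPred_eq, Set.mem_empty_iff_false, iff_false]
      exact fun h => hne ⟨x, h⟩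
    rw [this]; simp

theorem T_PTP : S_PTP := by
  intro d ι _ u hsp
  have hcont : ∀ k, Continuous fun x : V d => u k ⬝ᵥ x := by
    intro k
    exact Continuous.dotProduct continuous_const continuous_id
  -- closedness
  have hclosed : IsClosed (Pol u) := by
    have : Pol u = ⋂ k, {x : V d | |u k ⬝ᵥ x| ≤ 1} := by
      ext x; simp [Pol]
    rw [this]
    exact isClosed_iInter fun k => isClosed_le (hcont k).abs continuous_const
  -- boundedness
  set L : V d →ₗ[ℝ] (ι → ℝ) :=
    { toFun := fun x k => u k ⬝ᵥ x
      map_add' := fun x y => by ext k; simp [dotProduct_add]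
      map_smul' := fun r x => by ext k; simp [dotProduct_smul] } with hL
  have hLx : ∀ x k, L x k = u k ⬝ᵥ x := fun x k => rfl
  have hker : LinearMap.ker L = ⊥ := by
    rw [LinearMap.ker_eq_bot']
    intro x hx
    apply hsp
    intro k
    rw [← hLx, hx]; rfl
  obtain ⟨K, hK0, hK⟩ := L.exists_antilipschitzWith hker
  have hbdd : Bornology.IsBounded (Pol u) := by
    rw [isBounded_iff_forall_norm_le]
    refine ⟨K * 1, fun x hx => ?_⟩
    have h1 := hK.le_mul_dist x 0
    rw [map_zero, dist_zero_right, dist_zero_right] at h1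
    refine h1.trans ?_
    apply mul_le_mul_of_nonneg_left _ K.2
    rw [pi_norm_le_iff_of_nonneg zero_le_one]
    intro k
    rw [Real.norm_eq_abs]
    exact hx k
  have hcomp : IsCompact (Pol u) := Metric.isCompact_of_isClosed_isBounded hclosed hbdd
  refine ⟨hcomp, ?_, hcomp.measure_lt_top, ?_⟩
  · have hopen : IsOpen (⋂ k, {x : V d | |u k ⬝ᵥ x| < 1}) :=
      isOpen_iInter_of_finite fun k => isOpen_lt (hcont k).abs continuous_const
    have hne : (⋂ k, {x : V d | |u k ⬝ᵥ x| < 1}).Nonempty := by
      refine ⟨0, ?_⟩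
      rw [Set.mem_iInter]
      intro k
      simp
    refine lt_of_lt_of_le (hopen.measure_pos volume hne) (measure_mono ?_)
    intro x hx k
    rw [Set.mem_iInter] at hx
    exact (hx k).le
  · have hsub : {x : V d | ∃ k, |u k ⬝ᵥ x| = 1} ⊆
        ⋃ k, ({x : V d | |u k ⬝ᵥ x| = 1}) := by
      intro x hx
      obtain ⟨k, hk⟩ := hx
      rw [Set.mem_iUnion]
      exact ⟨k, hk⟩
    refine measure_mono_null hsub ?_
    rw [measure_iUnion_null_iff]
    intro k
    by_cases hk : u k = 0
    · have : {x : V d | |u k ⬝ᵥ x| = 1} = ∅ := by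
        ext x
        simp [hk]
      rw [this]; simp
    · have : {x : V d | |u k ⬝ᵥ x| = 1} ⊆ {x : V d | u k ⬝ᵥ x = 1} ∪ {x : V d | u k ⬝ᵥ x = -1} := by
        intro x hx
        have hx' : |u k ⬝ᵥ x| = 1 := hx
        rcases (abs_eq zero_le_one).mp hx' with h | h
        · exact Or.inl h
        · exact Or.inr h
      refine measure_mono_null this ?_
      rw [measure_union_null_iff]
      exact ⟨hyper_null _ _ hk, hyper_null _ _ hk⟩

end Pool.Agent.H381CM
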